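import Mathlib
import Pool.Agent.H14.UltraExp

set_option autoImplicit false

namespace Pool.Agent.Results.MP_846ee0_co.NoPairs

/-- `E₁(p, q) = {A : {n : {m : n ^ m ∈ A} ∈ q} ∈ p}` on the positive integers. -/
def E1 (p q : Ultrafilter ℕ+) : Set (Set ℕ+) :=
  {A | {n : ℕ+ | {m : ℕ+ | n ^ (m : ℕ) ∈ A} ∈ q} ∈ p}

/-- `E₂(p, q) = {A : {n : {m : m ^ n ∈ A} ∈ q} ∈ p}` on the positive integers. -/
def E2 (p q : Ultrafilter ℕ+) : Set (Set ℕ+) :=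
  {A | {n : ℕ+ | {m : ℕ+ | m ^ (n : ℕ) ∈ A} ∈ q} ∈ p}

/-- An ultrafilter on the positive integers is nonprincipal. -/
def Nonprincipal (p : Ultrafilter ℕ+) : Prop := ∀ a : ℕ+, p ≠ pure a

/-- Q1: there is no pair of nonprincipal ultrafilters with `E₁(p, q) = E₂(p, q)`;
Q2: in particular none on the diagonal. -/
theorem result :
    {pq : Ultrafilter ℕ+ × Ultrafilter ℕ+ |
      Nonprincipal pq.1 ∧ Nonprincipal pq.2 ∧ E1 pq.1 pq.2 = E2 pq.1 pq.2} = ∅ ∧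
    ∀ p : Ultrafilter ℕ+, Nonprincipal p → E1 p p ≠ E2 p p := by
  refine ⟨Set.eq_empty_of_forall_notMem ?_, fun p hp => Pool.Agent.H14.UltraExp.main p p hp hp⟩
  rintro ⟨p, q⟩ ⟨hp, hq, h⟩
  exact Pool.Agent.H14.UltraExp.main p q hp hq h

end Pool.Agent.Results.MP_846ee0_co.NoPairs
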